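import Pool.Agent.U496.TB.Sharp
import Pool.Agent.U496.PS.Fact

/-!
# Pushdown machines in two bases
-/

set_option autoImplicit false

namespace Pool.Agent.U496.TB

open Finset Filter
open Pool.Agent.U364.PD (Machine step run Predicts errors)

variable {Q Γ : Type}

/-- the machine which works on `d` as `M` does on `d - c` -/
def sh (M : Machine Q Γ) (c : ℤ) : Machine Q Γ where
  move := M.move
  read q γ d := M.read q γ (d - c)
  guess q γ := M.guess q γ + c

lemma step_sh (M : Machine Q Γ) (c : ℤ) (d : ℕ → ℤ) (z : Q × List Γ × ℕ) :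
    step (sh M c) (fun n => d n + c) z = step M d z := by
  obtain ⟨q, s, n⟩ := z
  cases s with
  | nil => rfl
  | cons γ s =>
    simp only [step, sh, add_sub_cancel_right]

lemma run_sh (M : Machine Q Γ) (c : ℤ) (d : ℕ → ℤ) (q₀ : Q) (s₀ : List Γ) (t : ℕ) :
    run (sh M c) (fun n => d n + c) q₀ s₀ t = run M d q₀ s₀ t := by
  induction t with
  | zero => rfl
  | succ t ih => rw [run, run, ih, step_sh]

lemma errors_sh (M : Machine Q Γ) (c : ℤ) (d : ℕ → ℤ) (q₀ : Q) (s₀ : List Γ) (N : ℕ) :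
    errors (sh M c) (fun n => d n + c) q₀ s₀ N = errors M d q₀ s₀ N := by
  classical
  have h : ∀ n, Predicts (sh M c) (fun n => d n + c) q₀ s₀ n ↔ Predicts M d q₀ s₀ n := by
    intro n
    unfold Predicts
    simp only [run_sh]
    simp only [sh, add_left_inj]
  unfold errors
  congr 1
  ext n
  rw [mem_filter, mem_filter, h n]

open Classical in
/-- the changes at one distance, for values between `-b` and `b` -/
theorem changes_int [Finite Q] [Finite Γ] (M : Machine Q Γ) (b : ℕ) :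
    ∃ K ρ : ℕ, 1 ≤ ρ ∧ ∀ y : ℕ → ℤ, (∀ n, -(b : ℤ) ≤ y n ∧ y n < b) → ∀ (q₀ : Q) (s₀ : List Γ) (N : ℕ),
      ((range N).filter (fun n => y (n + 1 + ρ) ≠ y (n + 1))).card ≤ K * (errors M y q₀ s₀ N + s₀.length + 1) := by
  obtain ⟨K, ρ, hρ, h⟩ := Pool.Agent.U496.PS.changes_le (sh M b) (2 * b)
  refine ⟨K, ρ, hρ, fun y hy q₀ s₀ N => ?_⟩
  have h1 := h (fun n => y n + b) (fun n => by have := hy n; push_cast; omega) q₀ s₀ N
  rw [errors_sh] at h1
  refine le_trans (le_of_eq ?_) h1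
  congr 1
  ext n
  rw [mem_filter, mem_filter]
  simp only [ne_eq, add_left_inj]

/-- two machines and one number, coprime bases -/
theorem push_coprime (a b : ℕ) (ha : 2 ≤ a) (hb : 2 ≤ b) (hab : Nat.Coprime a b) {Q' Γ' : Type} [Finite Q] [Finite Γ]
    [Finite Q'] [Finite Γ'] (M : Machine Q Γ) (M' : Machine Q' Γ') :
    ∃ c : ℝ, 0 < c ∧ ∀ x : ℝ, Irrational x → ∃ N₀ : ℕ, ∀ N : ℕ, N₀ ≤ N →
      ∀ (q₀ : Q) (s₀ : List Γ) (q₀' : Q') (s₀' : List Γ'),
      c * Real.log N ≤ (errors M (digit a x) q₀ s₀ N : ℝ) + s₀.length +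
        (errors M' (digit b x) q₀' s₀' N + s₀'.length) := by
  classical
  obtain ⟨K, ρ, hρ, h⟩ := Pool.Agent.U496.PS.changes_le M a
  obtain ⟨K', σ, hσ, h'⟩ := Pool.Agent.U496.PS.changes_le M' b
  obtain ⟨c, hc, hcc⟩ := changes_coprime a b ha hb hab
  refine ⟨c / (2 * (K + K' + 1)), by positivity, fun x hx => ?_⟩
  obtain ⟨N₀, hN₀⟩ := hcc x hx ρ σ hρ hσ
  obtain ⟨N₁, hN₁⟩ := exists_nat_gt (Real.exp (4 * (K + K' + 1) / c))
  refine ⟨max (max N₀ N₁) 1, fun N hN q₀ s₀ q₀' s₀' => ?_⟩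
  have hNN₀ : N₀ ≤ N := (le_max_left _ _).trans ((le_max_left _ _).trans hN)
  have hNN₁ : N₁ ≤ N := (le_max_right _ _).trans ((le_max_left _ _).trans hN)
  have hN1 : 1 ≤ N := (le_max_right _ _).trans hN
  have hNpos : (0 : ℝ) < N := by exact_mod_cast hN1
  have hlog : 4 * (K + K' + 1) / c ≤ Real.log N := by
    rw [Real.le_log_iff_exp_le hNpos]
    exact hN₁.le.trans (by exact_mod_cast hNN₁)
  rw [div_le_iff₀ hc] at hlog
  have h1 := hN₀ N hNN₀
  have h2 : (((range N).filter fun n => digit a x (n + 1 + ρ) ≠ digit a x (n + 1)).card : ℝ) ≤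
      K * ((errors M (digit a x) q₀ s₀ N : ℝ) + s₀.length + 1) := by
    have h3 := h (digit a x) (digit_bound a (by omega) x) q₀ s₀ N
    have h4 : ((range N).filter fun n => digit a x (n + 1 + ρ) ≠ digit a x (n + 1)).card ≤
      K * (errors M (digit a x) q₀ s₀ N + s₀.length + 1) := by convert h3
    exact_mod_cast h4
  have h2' : (((range N).filter fun n => digit b x (n + 1 + σ) ≠ digit b x (n + 1)).card : ℝ) ≤
      K' * ((errors M' (digit b x) q₀' s₀' N : ℝ) + s₀'.length + 1) := by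
    have h3 := h' (digit b x) (digit_bound b (by omega) x) q₀' s₀' N
    have h4 : ((range N).filter fun n => digit b x (n + 1 + σ) ≠ digit b x (n + 1)).card ≤
      K' * (errors M' (digit b x) q₀' s₀' N + s₀'.length + 1) := by convert h3
    exact_mod_cast h4
  obtain ⟨E, hE⟩ : ∃ E, E = (errors M (digit a x) q₀ s₀ N : ℝ) + s₀.length := ⟨_, rfl⟩
  obtain ⟨E', hE'⟩ : ∃ E', E' = (errors M' (digit b x) q₀' s₀' N : ℝ) + s₀'.length := ⟨_, rfl⟩
  have hE0 : 0 ≤ E := by rw [hE]; positivity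
  have hE0' : 0 ≤ E' := by rw [hE']; positivity
  rw [← hE] at h2
  rw [← hE'] at h2'
  rw [← hE, ← hE']
  have hK : (0 : ℝ) ≤ K := by positivity
  have hK' : (0 : ℝ) ≤ K' := by positivity
  have h5 : c * Real.log N ≤ (K + K' + 1) * (E + E' + 2) := by
    have h6 : c * Real.log N ≤ K * (E + 1) + K' * (E' + 1) := by
      refine h1.trans ?_
      refine le_trans ?_ (add_le_add h2 h2')
      refine le_of_eq ?_
      congr!
    nlinarith [mul_nonneg hK hE0', mul_nonneg hK' hE0]
  rw [div_mul_eq_mul_div, div_le_iff₀ (by positivity)]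
  nlinarith

/-- the machine which always predicts `0` -/
def zm : Machine Unit Unit where
  move _ _ := none
  read _ _ _ := ((), [()])
  guess _ _ := 0

lemma run_zm (d : ℕ → ℤ) (t : ℕ) : run zm d () [()] t = ((), [()], t) := by
  induction t with
  | zero => rfl
  | succ t ih =>
    rw [run, ih]
    rfl

lemma errors_zm (d : ℕ → ℤ) (N : ℕ) : errors zm d () [()] N = ((range N).filter fun n => d (n + 1) ≠ 0).card := by
  classical
  unfold errors
  congr 1
  ext n
  rw [mem_filter, mem_filter]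
  refine and_congr_right fun _ => not_iff_not.2 ⟨?_, fun h => ?_⟩
  · rintro ⟨t, q, γ, s, h1, _, h3⟩
    rw [run_zm] at h1
    exact h3.symm
  · exact ⟨n, (), (), [], run_zm d n, rfl, h.symm⟩

end Pool.Agent.U496.TB
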