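import Mathlib

/-!
# The digits of an irrational number in two coprime bases

For coprime `a, b` and every irrational `x` (Liouville numbers included) the number of the `n < N` with different digits at
`n` and `n + ρ` in base `a`, plus the same number in base `b` (with `σ`), is at least `c log N`, where `c` depends only on
`a` and `b`.
-/

set_option autoImplicit false

namespace Pool.Agent.U496.TB

open Finset

/-- the `n`-th digit after the point (`n ≥ 1`) of `x` in base `b` -/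
noncomputable def digit (b : ℕ) (x : ℝ) (n : ℕ) : ℤ := ⌊(b : ℝ) ^ n * x⌋ % b

lemma digit_bound (b : ℕ) (hb : 1 ≤ b) (x : ℝ) (n : ℕ) : 0 ≤ digit b x n ∧ digit b x n < b :=
  ⟨Int.emod_nonneg _ (by positivity), Int.emod_lt_of_pos _ (by positivity)⟩

lemma floor_succ (b : ℕ) (hb : 1 ≤ b) (x : ℝ) (n : ℕ) :
    ⌊(b : ℝ) ^ (n + 1) * x⌋ = b * ⌊(b : ℝ) ^ n * x⌋ + digit b x (n + 1) := by
  obtain ⟨F, hF⟩ : ∃ F, F = ⌊(b : ℝ) ^ (n + 1) * x⌋ := ⟨_, rfl⟩
  have hb0 : (0 : ℤ) < b := by positivity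
  have hb0' : (0 : ℝ) < b := by positivity
  have h1 : (F : ℝ) ≤ (b : ℝ) ^ (n + 1) * x := by rw [hF]; exact Int.floor_le _
  have h2 : (b : ℝ) ^ (n + 1) * x < F + 1 := by rw [hF]; exact Int.lt_floor_add_one _
  have h3 : (b : ℤ) * (F / b) + F % b = F := Int.mul_ediv_add_emod F b
  have h4 : 0 ≤ F % b := Int.emod_nonneg _ hb0.ne'
  have h5 : F % b < b := Int.emod_lt_of_pos _ hb0
  have h6 : F / b = ⌊(b : ℝ) ^ n * x⌋ := by
    symm
    rw [Int.floor_eq_iff]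
    have e : (b : ℝ) ^ (n + 1) * x = b * ((b : ℝ) ^ n * x) := by ring
    rw [e] at h1 h2
    constructor
    · have h7 : (b : ℤ) * (F / b) ≤ F := by omega
      have h8 : (b : ℝ) * ((F / b : ℤ) : ℝ) ≤ F := by exact_mod_cast h7
      exact le_of_mul_le_mul_left (h8.trans h1) hb0'
    · have h7 : F + 1 ≤ (b : ℤ) * (F / b + 1) := by
        have : (b : ℤ) * (F / b + 1) = b * (F / b) + b := by ring
        omega
      have h8 : (F : ℝ) + 1 ≤ (b : ℝ) * (((F / b : ℤ) : ℝ) + 1) := by exact_mod_cast h7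
      exact lt_of_mul_lt_mul_left (h2.trans_le h8) hb0'.le
  unfold digit
  rw [← hF, ← h6]
  exact h3.symm

/-- a stretch with period `ρ` gives a good approximation -/
lemma near (b : ℕ) (hb : 1 ≤ b) (x : ℝ) (ρ n₀ L : ℕ)
    (h : ∀ n, n₀ ≤ n → n < n₀ + L → digit b x (n + 1 + ρ) = digit b x (n + 1)) :
    ∃ p : ℤ, |((b : ℝ) ^ ρ - 1) * b ^ n₀ * x - p| * b ^ L < 1 := by
  have hb0 : (0 : ℝ) < b := by positivity
  refine ⟨⌊(b : ℝ) ^ (n₀ + ρ) * x⌋ - ⌊(b : ℝ) ^ n₀ * x⌋, ?_⟩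
  have key : ∀ k, k ≤ L → ⌊(b : ℝ) ^ (n₀ + ρ + k) * x⌋ - ⌊(b : ℝ) ^ (n₀ + k) * x⌋ =
      (b : ℤ) ^ k * (⌊(b : ℝ) ^ (n₀ + ρ) * x⌋ - ⌊(b : ℝ) ^ n₀ * x⌋) := by
    intro k
    induction k with
    | zero => intro _; simp
    | succ k ih =>
      intro hk
      have h1 := ih (by omega)
      have h2 := floor_succ b hb x (n₀ + ρ + k)
      have h3 := floor_succ b hb x (n₀ + k)
      have h4 := h (n₀ + k) (by omega) (by omega)
      rw [show n₀ + k + 1 + ρ = n₀ + ρ + k + 1 by ring] at h4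
      rw [show n₀ + ρ + (k + 1) = n₀ + ρ + k + 1 by ring, show n₀ + (k + 1) = n₀ + k + 1 by ring, h2, h3, h4, pow_succ]
      linear_combination (b : ℤ) * h1
  have h1 := key L le_rfl
  obtain ⟨A, hA⟩ : ∃ A, A = ⌊(b : ℝ) ^ (n₀ + ρ + L) * x⌋ := ⟨_, rfl⟩
  obtain ⟨B, hB⟩ : ∃ B, B = ⌊(b : ℝ) ^ (n₀ + L) * x⌋ := ⟨_, rfl⟩
  obtain ⟨P, hP⟩ : ∃ P, P = ⌊(b : ℝ) ^ (n₀ + ρ) * x⌋ - ⌊(b : ℝ) ^ n₀ * x⌋ := ⟨_, rfl⟩
  rw [← hA, ← hB, ← hP] at h1
  rw [← hP]
  have h2 : (A : ℝ) - B = (b : ℝ) ^ L * P := by exact_mod_cast h1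
  have h3 : (((b : ℝ) ^ ρ - 1) * b ^ n₀ * x - P) * b ^ L =
      ((b : ℝ) ^ (n₀ + ρ + L) * x - A) - ((b : ℝ) ^ (n₀ + L) * x - B) := by
    rw [pow_add, pow_add, pow_add]
    linear_combination h2
  have h4 : |((b : ℝ) ^ ρ - 1) * b ^ n₀ * x - P| * b ^ L = |(((b : ℝ) ^ ρ - 1) * b ^ n₀ * x - P) * b ^ L| := by
    rw [abs_mul, abs_of_pos (pow_pos hb0 L)]
  rw [h4, h3, abs_lt]
  have h5 : (A : ℝ) ≤ (b : ℝ) ^ (n₀ + ρ + L) * x := by rw [hA]; exact Int.floor_le _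
  have h6 : (b : ℝ) ^ (n₀ + ρ + L) * x < A + 1 := by rw [hA]; exact Int.lt_floor_add_one _
  have h7 : (B : ℝ) ≤ (b : ℝ) ^ (n₀ + L) * x := by rw [hB]; exact Int.floor_le _
  have h8 : (b : ℝ) ^ (n₀ + L) * x < B + 1 := by rw [hB]; exact Int.lt_floor_add_one _
  constructor <;> linarith

lemma dist_pos {y : ℝ} (hy : Irrational y) : ∃ η : ℝ, 0 < η ∧ ∀ s : ℤ, η ≤ |y - s| := by
  refine ⟨|y - round y|, ?_, fun s => round_le y s⟩
  rw [abs_pos, sub_ne_zero]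
  exact fun h => hy ⟨(round y : ℚ), by push_cast; exact h.symm⟩

lemma pow_le_two (a b u σ L : ℕ) (ha : 2 ≤ a) (h : b * (σ + u) + 1 ≤ L) :
    2 * (b : ℝ) ^ (σ + u) ≤ (a : ℝ) ^ L := by
  have h1 : (b : ℝ) ≤ (2 : ℝ) ^ b := by
    have := (Nat.lt_two_pow_self (n := b)).le
    exact_mod_cast this
  have ha' : (2 : ℝ) ≤ a := by exact_mod_cast ha
  calc 2 * (b : ℝ) ^ (σ + u) ≤ 2 * ((2 : ℝ) ^ b) ^ (σ + u) := by gcongr
    _ = (2 : ℝ) ^ (b * (σ + u) + 1) := by rw [← pow_mul, pow_succ]; ring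
    _ ≤ (2 : ℝ) ^ L := pow_le_pow_right₀ (by norm_num) h
    _ ≤ (a : ℝ) ^ L := pow_le_pow_left₀ (by norm_num) ha' _

/-- two coprime bases do not have long stretches with bounded periods at the same places -/
theorem no_window (a b : ℕ) (ha : 2 ≤ a) (hb : 2 ≤ b) (hab : Nat.Coprime a b) (x : ℝ) (hx : Irrational x) (ρ σ : ℕ)
    (hρ : 1 ≤ ρ) (hσ : 1 ≤ σ) : ∃ u₀ : ℕ, ∀ u : ℕ, u₀ ≤ u → ∃ n, u ≤ n ∧ n < 4 * (a + b) * u ∧
      (digit a x (n + 1 + ρ) ≠ digit a x (n + 1) ∨ digit b x (n + 1 + σ) ≠ digit b x (n + 1)) := by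
  obtain ⟨A, hA⟩ : ∃ A : ℕ, A = a ^ ρ - 1 := ⟨_, rfl⟩
  obtain ⟨B, hB⟩ : ∃ B : ℕ, B = b ^ σ - 1 := ⟨_, rfl⟩
  have haρ : 2 ≤ a ^ ρ := ha.trans (Nat.le_self_pow (by omega) a)
  have hbσ : 2 ≤ b ^ σ := hb.trans (Nat.le_self_pow (by omega) b)
  have hA1 : 1 ≤ A := by omega
  have hB1 : 1 ≤ B := by omega
  have hAr : (A : ℝ) = (a : ℝ) ^ ρ - 1 := by
    rw [hA, Nat.cast_sub (by omega), Nat.cast_pow, Nat.cast_one]
  have hBr : (B : ℝ) = (b : ℝ) ^ σ - 1 := by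
    rw [hB, Nat.cast_sub (by omega), Nat.cast_pow, Nat.cast_one]
  have hirr : Irrational (((A * B : ℕ) : ℝ) * x) := by
    exact hx.natCast_mul (by positivity)
  obtain ⟨η, hη, hηs⟩ := dist_pos hirr
  obtain ⟨u₁, hu₁⟩ := exists_nat_gt ((B : ℝ) / η)
  refine ⟨max (max ρ σ) (max 1 u₁), fun u hu => ?_⟩
  have huρ : ρ ≤ u := (le_max_left _ _).trans ((le_max_left _ _).trans hu)
  have huσ : σ ≤ u := (le_max_right _ _).trans ((le_max_left _ _).trans hu)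
  have hu1 : 1 ≤ u := (le_max_left _ _).trans ((le_max_right _ _).trans hu)
  have huu : u₁ ≤ u := (le_max_right _ _).trans ((le_max_right _ _).trans hu)
  by_contra hcon
  push Not at hcon
  obtain ⟨L, hL⟩ : ∃ L, L = 4 * (a + b) * u - u := ⟨_, rfl⟩
  have hge : u ≤ 4 * (a + b) * u := Nat.le_mul_of_pos_left u (by omega)
  have hwa : ∀ n, u ≤ n → n < u + L → digit a x (n + 1 + ρ) = digit a x (n + 1) :=
    fun n h1 h2 => (hcon n h1 (by omega)).1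
  have hwb : ∀ n, u ≤ n → n < u + L → digit b x (n + 1 + σ) = digit b x (n + 1) :=
    fun n h1 h2 => (hcon n h1 (by omega)).2
  obtain ⟨p, hp⟩ := near a (by omega) x ρ u L hwa
  obtain ⟨p', hp'⟩ := near b (by omega) x σ u L hwb
  rw [← hAr] at hp
  rw [← hBr] at hp'
  have hLb : b * (σ + u) + 1 ≤ L := by
    have h1 : b * (σ + u) ≤ b * (u + u) := Nat.mul_le_mul_left _ (by omega)
    have h2 : 4 * (a + b) * u = b * (u + u) + u + (4 * a * u + 2 * b * u - u) := by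
      have : u ≤ 4 * a * u := Nat.le_mul_of_pos_left u (by omega)
      have e : 4 * (a + b) * u = b * (u + u) + (4 * a * u + 2 * b * u) := by ring
      omega
    have h3 : u ≤ a * u := Nat.le_mul_of_pos_left u (by omega)
    have h4 : 4 * a * u = 4 * (a * u) := by ring
    omega
  have hLa : a * (ρ + u) + 1 ≤ L := by
    have h1 : a * (ρ + u) ≤ a * (u + u) := Nat.mul_le_mul_left _ (by omega)
    have e : 4 * (a + b) * u = a * (u + u) + (2 * (a * u) + 4 * (b * u)) := by ring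
    have h3 : u ≤ b * u := Nat.le_mul_of_pos_left u (by omega)
    omega
  have hpa := pow_le_two a b u σ L ha hLb
  have hpb := pow_le_two b a u ρ L hb hLa
  have ha0 : (0 : ℝ) < a := by positivity
  have hb0 : (0 : ℝ) < b := by positivity
  obtain ⟨X, hX⟩ : ∃ X, X = (A : ℝ) * a ^ u * x - p := ⟨_, rfl⟩
  obtain ⟨Y, hY⟩ : ∃ Y, Y = (B : ℝ) * b ^ u * x - p' := ⟨_, rfl⟩
  rw [← hX] at hp
  rw [← hY] at hp'
  have hBb : (B : ℝ) * (b : ℝ) ^ u ≤ (b : ℝ) ^ (σ + u) := by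
    rw [pow_add]
    exact mul_le_mul_of_nonneg_right (by rw [hBr]; linarith) (by positivity)
  have hAa : (A : ℝ) * (a : ℝ) ^ u ≤ (a : ℝ) ^ (ρ + u) := by
    rw [pow_add]
    exact mul_le_mul_of_nonneg_right (by rw [hAr]; linarith) (by positivity)
  have h1 : |X| * ((B : ℝ) * b ^ u) < 1 / 2 := by
    have h2 : |X| * (2 * ((B : ℝ) * b ^ u)) ≤ |X| * a ^ L :=
      mul_le_mul_of_nonneg_left (by linarith) (abs_nonneg _)
    linarith
  have h1' : |Y| * ((A : ℝ) * a ^ u) < 1 / 2 := by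
    have h2 : |Y| * (2 * ((A : ℝ) * a ^ u)) ≤ |Y| * b ^ L :=
      mul_le_mul_of_nonneg_left (by linarith) (abs_nonneg _)
    linarith
  have hD : (B : ℤ) * (b : ℤ) ^ u * p = (A : ℤ) * (a : ℤ) ^ u * p' := by
    have h2 : ((((B : ℤ) * (b : ℤ) ^ u * p - (A : ℤ) * (a : ℤ) ^ u * p' : ℤ)) : ℝ) =
        -(X * ((B : ℝ) * b ^ u)) + Y * ((A : ℝ) * a ^ u) := by
      push_cast
      rw [hX, hY]
      ring
    have h3 : |((((B : ℤ) * (b : ℤ) ^ u * p - (A : ℤ) * (a : ℤ) ^ u * p' : ℤ)) : ℝ)| < 1 := by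
      rw [h2]
      calc |-(X * ((B : ℝ) * b ^ u)) + Y * ((A : ℝ) * a ^ u)|
          ≤ |-(X * ((B : ℝ) * b ^ u))| + |Y * ((A : ℝ) * a ^ u)| := abs_add_le _ _
        _ = |X| * ((B : ℝ) * b ^ u) + |Y| * ((A : ℝ) * a ^ u) := by
            rw [abs_neg, abs_mul X, abs_mul Y, abs_of_nonneg (by positivity : (0 : ℝ) ≤ (B : ℝ) * b ^ u),
              abs_of_nonneg (by positivity : (0 : ℝ) ≤ (A : ℝ) * a ^ u)]
        _ < 1 := by linarith
    rw [← Int.cast_abs] at h3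
    have h4 : |(B : ℤ) * (b : ℤ) ^ u * p - (A : ℤ) * (a : ℤ) ^ u * p'| < 1 := by exact_mod_cast h3
    have h5 := Int.abs_lt_one_iff.1 h4
    omega
  have hdvd : ((a : ℤ) ^ u) ∣ (B : ℤ) * p := by
    have h2 : ((a : ℤ) ^ u) ∣ (b : ℤ) ^ u * ((B : ℤ) * p) := ⟨(A : ℤ) * p', by linear_combination hD⟩
    have hcop : IsCoprime ((a : ℤ) ^ u) ((b : ℤ) ^ u) := (Nat.isCoprime_iff_coprime.2 hab).pow
    exact hcop.dvd_of_dvd_mul_left h2
  obtain ⟨s, hs⟩ := hdvd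
  have hs' : (B : ℝ) * p = (a : ℝ) ^ u * s := by exact_mod_cast hs
  have h6 := hηs s
  have h7 : |((A * B : ℕ) : ℝ) * x - s| * (a : ℝ) ^ u = |X| * B := by
    have h8 : (((A * B : ℕ) : ℝ) * x - s) * (a : ℝ) ^ u = X * B := by
      push_cast
      rw [hX]
      linear_combination hs'
    rw [← abs_of_pos (pow_pos ha0 u), ← abs_mul, h8, abs_mul, abs_of_nonneg (by positivity : (0 : ℝ) ≤ (B : ℝ))]
  have h9 : |X| < 1 := by
    have h10 : (1 : ℝ) ≤ (a : ℝ) ^ L := one_le_pow₀ (by exact_mod_cast (by omega : 1 ≤ a))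
    nlinarith [abs_nonneg X]
  have h11 : η * (a : ℝ) ^ u ≤ B := by
    calc η * (a : ℝ) ^ u ≤ |((A * B : ℕ) : ℝ) * x - s| * (a : ℝ) ^ u :=
          mul_le_mul_of_nonneg_right h6 (by positivity)
      _ = |X| * B := h7
      _ ≤ 1 * B := mul_le_mul_of_nonneg_right h9.le (by positivity)
      _ = B := one_mul _
  have h12 : (u : ℝ) < (a : ℝ) ^ u := by
    have h13 : u < a ^ u := Nat.lt_pow_self (by omega)
    exact_mod_cast h13
  have h14 : (B : ℝ) / η < u := hu₁.trans_le (by exact_mod_cast huu)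
  rw [div_lt_iff₀ hη] at h14
  nlinarith

open Classical in
/-- **Changes of the digits in two coprime bases.** -/
theorem changes_coprime (a b : ℕ) (ha : 2 ≤ a) (hb : 2 ≤ b) (hab : Nat.Coprime a b) :
    ∃ c : ℝ, 0 < c ∧ ∀ x : ℝ, Irrational x → ∀ ρ σ : ℕ, 1 ≤ ρ → 1 ≤ σ → ∃ N₀ : ℕ, ∀ N : ℕ, N₀ ≤ N →
      c * Real.log N ≤ (((range N).filter fun n => digit a x (n + 1 + ρ) ≠ digit a x (n + 1)).card : ℝ) +
        ((range N).filter fun n => digit b x (n + 1 + σ) ≠ digit b x (n + 1)).card := by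
  obtain ⟨κ, hκ⟩ : ∃ κ, κ = 4 * (a + b) := ⟨_, rfl⟩
  have hκ2 : 2 ≤ κ := by omega
  have hlogκ : 0 < Real.log κ := Real.log_pos (by exact_mod_cast (by omega : 1 < κ))
  refine ⟨1 / (2 * Real.log κ), by positivity, fun x hx ρ σ hρ hσ => ?_⟩
  obtain ⟨u₀, hu₀⟩ := no_window a b ha hb hab x hx ρ σ hρ hσ
  obtain ⟨N₁, hN₁⟩ := exists_nat_gt (Real.exp ((u₀ + 1) * (2 * Real.log κ)))
  refine ⟨max N₁ 1, fun N hN => ?_⟩
  have hN1 : 1 ≤ N := (le_max_right _ _).trans hN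
  have hNN : N₁ ≤ N := (le_max_left _ _).trans hN
  have hNpos : (0 : ℝ) < N := by exact_mod_cast hN1
  have hlogN : ((u₀ : ℝ) + 1) * (2 * Real.log κ) ≤ Real.log N := by
    rw [Real.le_log_iff_exp_le hNpos]
    exact hN₁.le.trans (by exact_mod_cast hNN)
  obtain ⟨J, hJ⟩ : ∃ J, J = Nat.log κ N := ⟨_, rfl⟩
  have hJ1 : κ ^ J ≤ N := by rw [hJ]; exact Nat.pow_log_le_self κ (by omega)
  have hJ2 : N < κ ^ (J + 1) := by rw [hJ]; exact Nat.lt_pow_succ_log_self (by omega) N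
  obtain ⟨S, hS⟩ : ∃ S, S = (range N).filter fun n => digit a x (n + 1 + ρ) ≠ digit a x (n + 1) ∨
      digit b x (n + 1 + σ) ≠ digit b x (n + 1) := ⟨_, rfl⟩
  have hScard : S.card ≤ ((range N).filter fun n => digit a x (n + 1 + ρ) ≠ digit a x (n + 1)).card +
      ((range N).filter fun n => digit b x (n + 1 + σ) ≠ digit b x (n + 1)).card := by
    rw [hS, filter_or]
    exact card_union_le _ _
  have hsel : ∀ j : ℕ, ∃ n, u₀ ≤ j → j < J → κ ^ j ≤ n ∧ n < κ ^ (j + 1) ∧ n ∈ S := by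
    intro j
    by_cases h : u₀ ≤ j ∧ j < J
    · have h1 : u₀ ≤ κ ^ j := h.1.trans (Nat.lt_pow_self (by omega)).le
      obtain ⟨n, h2, h3, h4⟩ := hu₀ (κ ^ j) h1
      refine ⟨n, fun _ _ => ?_⟩
      have h5 : n < κ ^ (j + 1) := by
        rw [pow_succ, mul_comm (κ ^ j) κ, hκ]
        rw [hκ] at h3
        exact h3
      refine ⟨h2, h5, ?_⟩
      rw [hS, mem_filter, mem_range]
      refine ⟨lt_of_lt_of_le h5 ((Nat.pow_le_pow_right (by omega) (by omega)).trans hJ1), h4⟩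
    · exact ⟨0, fun h1 h2 => absurd ⟨h1, h2⟩ h⟩
  choose f hf using hsel
  have hcard : J - u₀ ≤ S.card := by
    rw [← Nat.card_Ico]
    apply card_le_card_of_injOn f
    · intro j hj
      rw [mem_coe, mem_Ico] at hj
      exact (hf j hj.1 hj.2).2.2
    · intro i hi j hj hij
      rw [mem_coe, mem_Ico] at hi hj
      have hfi := hf i hi.1 hi.2
      have hfj := hf j hj.1 hj.2
      rw [hij] at hfi
      rcases lt_trichotomy i j with h | h | h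
      · exfalso
        have : κ ^ (i + 1) ≤ κ ^ j := Nat.pow_le_pow_right (by omega) (by omega)
        omega
      · exact h
      · exfalso
        have : κ ^ (j + 1) ≤ κ ^ i := Nat.pow_le_pow_right (by omega) (by omega)
        omega
  have hJr : Real.log N ≤ ((J : ℝ) + 1) * Real.log κ := by
    have h1 : (N : ℝ) ≤ (κ : ℝ) ^ (J + 1) := by exact_mod_cast hJ2.le
    have h2 := Real.log_le_log hNpos h1
    rw [Real.log_pow] at h2
    push_cast at h2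
    exact h2
  have h1 : (J : ℝ) ≤ (S.card : ℝ) + u₀ := by
    have : J ≤ S.card + u₀ := by omega
    exact_mod_cast this
  have h2 : (S.card : ℝ) ≤ (((range N).filter fun n => digit a x (n + 1 + ρ) ≠ digit a x (n + 1)).card : ℝ) +
      ((range N).filter fun n => digit b x (n + 1 + σ) ≠ digit b x (n + 1)).card := by exact_mod_cast hScard
  refine le_trans ?_ h2
  have h3 : 1 / (2 * Real.log κ) * Real.log N = Real.log N / Real.log κ / 2 := by
    field_simp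
  rw [h3]
  have h4 : Real.log N / Real.log κ ≤ (J : ℝ) + 1 := by
    rw [div_le_iff₀ hlogκ]
    exact hJr
  have h5 : 2 * ((u₀ : ℝ) + 1) ≤ Real.log N / Real.log κ := by
    rw [le_div_iff₀ hlogκ]
    linarith
  linarith

end Pool.Agent.U496.TB
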