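import Pool.Agent.U496.TB.Cop

/-!
# Two bases with a common factor: numbers with very few nonzero digits in both bases

For `g = gcd (a, b) ≥ 2` the numbers `∑ g ^ (- k_j)` with a very sparse sequence `k_j` have, at infinitely many places,
very few nonzero digits in both bases.
-/

set_option autoImplicit false

namespace Pool.Agent.U496.TB

open Finset Filter

section

variable (g : ℕ) (k : ℕ → ℕ)

/-- the terms -/
noncomputable def tm (j : ℕ) : ℝ := ((g : ℝ)⁻¹) ^ (k j)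

lemma tm_pos (hg : 2 ≤ g) (j : ℕ) : 0 < tm g k j := by
  unfold tm
  positivity

lemma k_add (hk : ∀ j, k j + 1 ≤ k (j + 1)) (J i : ℕ) : k J + i ≤ k (i + J) := by
  induction i with
  | zero => simp
  | succ i ih =>
    have h1 := hk (i + J)
    rw [show i + 1 + J = i + J + 1 by ring]
    omega

lemma tm_le (hg : 2 ≤ g) (hk : ∀ j, k j + 1 ≤ k (j + 1)) (J i : ℕ) :
    tm g k (i + J) ≤ ((g : ℝ)⁻¹) ^ (k J) * (2⁻¹ : ℝ) ^ i := by
  have hg' : (2 : ℝ) ≤ g := by exact_mod_cast hg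
  have h1 : (g : ℝ)⁻¹ ≤ 2⁻¹ := by
    rw [inv_le_inv₀ (by linarith) (by norm_num)]
    exact hg'
  have h2 : (g : ℝ)⁻¹ ≤ 1 := h1.trans (by norm_num)
  have h0 : (0 : ℝ) ≤ (g : ℝ)⁻¹ := by positivity
  unfold tm
  calc ((g : ℝ)⁻¹) ^ (k (i + J)) ≤ ((g : ℝ)⁻¹) ^ (k J + i) := pow_le_pow_of_le_one h0 h2 (k_add k hk J i)
    _ = ((g : ℝ)⁻¹) ^ (k J) * ((g : ℝ)⁻¹) ^ i := pow_add _ _ _
    _ ≤ ((g : ℝ)⁻¹) ^ (k J) * (2⁻¹ : ℝ) ^ i := by
      apply mul_le_mul_of_nonneg_left _ (by positivity)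
      exact pow_le_pow_left₀ h0 h1 i

lemma tm_summable (hg : 2 ≤ g) (hk : ∀ j, k j + 1 ≤ k (j + 1)) : Summable (tm g k) := by
  refine Summable.of_nonneg_of_le (fun j => (tm_pos g k hg j).le) (fun j => tm_le g k hg hk 0 j) ?_
  exact (summable_geometric_of_lt_one (by norm_num) (by norm_num)).mul_left _

/-- the tail -/
lemma tail (hg : 2 ≤ g) (hk : ∀ j, k j + 1 ≤ k (j + 1)) (J : ℕ) :
    0 < (∑' j, tm g k j) - ∑ j ∈ range J, tm g k j ∧
      (∑' j, tm g k j) - ∑ j ∈ range J, tm g k j ≤ 2 * ((g : ℝ)⁻¹) ^ (k J) := by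
  have hs := tm_summable g k hg hk
  have h1 : (∑' j, tm g k j) - ∑ j ∈ range J, tm g k j = ∑' i, tm g k (i + J) := by
    rw [← hs.sum_add_tsum_nat_add J]
    ring
  have hs2 : Summable fun i => tm g k (i + J) := (summable_nat_add_iff J).2 hs
  rw [h1]
  constructor
  · exact hs2.tsum_pos (fun i => (tm_pos g k hg _).le) 0 (tm_pos g k hg _)
  · have h2 : Summable fun i : ℕ => ((g : ℝ)⁻¹) ^ (k J) * (2⁻¹ : ℝ) ^ i :=
      (summable_geometric_of_lt_one (by norm_num) (by norm_num)).mul_left _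
    refine (hs2.tsum_le_tsum (fun i => tm_le g k hg hk J i) h2).trans (le_of_eq ?_)
    rw [tsum_mul_left, tsum_geometric_of_lt_one (by norm_num) (by norm_num)]
    norm_num
    ring

/-- the partial sums, multiplied by a multiple of a power of `g`, are integers -/
lemma partial_int (hg : 2 ≤ g) (hk : ∀ j, k j + 1 ≤ k (j + 1)) (J : ℕ) (m : ℕ) (hm : g ^ (k J) ∣ m) :
    ∃ z : ℤ, (m : ℝ) * ∑ j ∈ range (J + 1), tm g k j = z := by
  have hmono : ∀ j, j ≤ J → k j ≤ k J := by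
    intro j hj
    have := k_add k hk j (J - j)
    rw [Nat.sub_add_cancel hj] at this
    omega
  have h1 : ∀ j ∈ range (J + 1), ∃ z : ℤ, (m : ℝ) * tm g k j = z := by
    intro j hj
    rw [mem_range] at hj
    obtain ⟨r, hr⟩ := (pow_dvd_pow g (hmono j (by omega))).trans hm
    refine ⟨r, ?_⟩
    have hg0 : (g : ℝ) ≠ 0 := by positivity
    unfold tm
    rw [hr]
    push_cast
    rw [inv_pow]
    field_simp
  rw [Finset.mul_sum]
  choose! z hz using h1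
  refine ⟨∑ j ∈ range (J + 1), z j, ?_⟩
  rw [Finset.sum_congr rfl hz]
  push_cast
  rfl

theorem tm_irrational (hg : 2 ≤ g) (hk : ∀ j, 2 * k j + 2 ≤ k (j + 1)) : Irrational (∑' j, tm g k j) := by
  have hk' : ∀ j, k j + 1 ≤ k (j + 1) := fun j => by have := hk j; omega
  have hkj : ∀ j, j ≤ k j := by
    intro j
    have := k_add k hk' 0 j
    simpa using this.trans' (by omega)
  rintro ⟨r, hr⟩
  obtain ⟨q, hq⟩ : ∃ q : ℕ, q = r.den := ⟨_, rfl⟩
  have hq1 : 1 ≤ q := by rw [hq]; exact r.pos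
  obtain ⟨J, hJ⟩ : ∃ J, J = 2 * q := ⟨_, rfl⟩
  obtain ⟨h1, h2⟩ := tail g k hg hk' (J + 1)
  obtain ⟨z, hz⟩ := partial_int g k hg hk' J (g ^ (k J) * q) (dvd_mul_right _ _)
  have h3 : ∃ w : ℤ, ((g ^ (k J) * q : ℕ) : ℝ) * (∑' j, tm g k j) = w := by
    refine ⟨(g : ℤ) ^ (k J) * r.num, ?_⟩
    rw [← hr]
    have h4 : (r : ℝ) * (q : ℝ) = r.num := by
      have := Rat.mul_den_eq_num r
      rw [hq]
      exact_mod_cast this
    push_cast
    rw [← h4]
    ring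
  obtain ⟨w, hw⟩ := h3
  obtain ⟨R, hR⟩ : ∃ R, R = (∑' j, tm g k j) - ∑ j ∈ range (J + 1), tm g k j := ⟨_, rfl⟩
  rw [← hR] at h1 h2
  have h5 : ((g ^ (k J) * q : ℕ) : ℝ) * R = ((w - z : ℤ) : ℝ) := by
    rw [hR, mul_sub, hw, hz]
    push_cast
    rfl
  have hgr : (2 : ℝ) ≤ g := by exact_mod_cast hg
  have hg0 : (0 : ℝ) < g := by linarith
  have hmpos : (0 : ℝ) < ((g ^ (k J) * q : ℕ) : ℝ) := by
    have : 0 < g ^ (k J) * q := by positivity
    exact_mod_cast this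
  have h6 : ((g ^ (k J) * q : ℕ) : ℝ) * R < 1 := by
    have h7 : ((g ^ (k J) * q : ℕ) : ℝ) * R ≤ ((g ^ (k J) * q : ℕ) : ℝ) * (2 * ((g : ℝ)⁻¹) ^ (k (J + 1))) :=
      mul_le_mul_of_nonneg_left h2 hmpos.le
    refine lt_of_le_of_lt h7 ?_
    have h8 : (g : ℝ) ^ (k J) * (2 * q) < (g : ℝ) ^ (k (J + 1)) := by
      have h9 : (2 * q : ℝ) < (g : ℝ) ^ J := by
        have h10 : 2 * q < g ^ J := by
          rw [hJ]
          exact Nat.lt_pow_self (by omega)
        exact_mod_cast h10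
      have h11 : k J + J ≤ k (J + 1) := by
        have := hk J
        have := hkj J
        omega
      calc (g : ℝ) ^ (k J) * (2 * q) < (g : ℝ) ^ (k J) * (g : ℝ) ^ J := mul_lt_mul_of_pos_left h9 (by positivity)
        _ = (g : ℝ) ^ (k J + J) := (pow_add _ _ _).symm
        _ ≤ (g : ℝ) ^ (k (J + 1)) := pow_le_pow_right₀ (by linarith) h11
    rw [inv_pow]
    push_cast
    rw [show (g : ℝ) ^ k J * q * (2 * ((g : ℝ) ^ k (J + 1))⁻¹) = (g : ℝ) ^ k J * (2 * q) / (g : ℝ) ^ k (J + 1) by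
      rw [div_eq_mul_inv]; ring]
    rw [div_lt_one (by positivity)]
    exact h8
  rw [h5] at h6
  have h12 : (0 : ℝ) < ((w - z : ℤ) : ℝ) := by
    rw [← h5]
    positivity
  have h13 : (0 : ℤ) < w - z := by exact_mod_cast h12
  have h14 : w - z < 1 := by exact_mod_cast h6
  omega

/-- a long stretch of zeros -/
theorem tm_digit (a : ℕ) (ha : 2 ≤ a) (hga : g ∣ a) (hg : 2 ≤ g) (hk : ∀ j, k j + 1 ≤ k (j + 1)) (J n : ℕ)
    (h1 : k J ≤ n) (h2 : a * (n + 1) + 2 ≤ k (J + 1)) : digit a (∑' j, tm g k j) (n + 1) = 0 := by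
  obtain ⟨h3, h4⟩ := tail g k hg hk (J + 1)
  obtain ⟨z, hz⟩ := partial_int g k hg hk J (a ^ n) ((pow_dvd_pow g h1).trans (pow_dvd_pow_of_dvd hga n))
  obtain ⟨R, hR⟩ : ∃ R, R = (∑' j, tm g k j) - ∑ j ∈ range (J + 1), tm g k j := ⟨_, rfl⟩
  rw [← hR] at h3 h4
  have hgr : (2 : ℝ) ≤ g := by exact_mod_cast hg
  have hg0 : (0 : ℝ) < g := by linarith
  have ha0 : (0 : ℝ) < a := by positivity
  have h5 : (a : ℝ) ^ (n + 1) * (∑' j, tm g k j) = ((a * z : ℤ) : ℝ) + (a : ℝ) ^ (n + 1) * R := by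
    push_cast
    rw [← hz, hR]
    push_cast
    ring
  have h6 : (a : ℝ) ^ (n + 1) * R < 1 := by
    have h7 : (a : ℝ) ≤ (g : ℝ) ^ a := by
      have : a ≤ g ^ a := (Nat.lt_pow_self (by omega)).le
      exact_mod_cast this
    have h8 : (a : ℝ) ^ (n + 1) ≤ (g : ℝ) ^ (a * (n + 1)) := by
      rw [pow_mul]
      exact pow_le_pow_left₀ ha0.le h7 _
    calc (a : ℝ) ^ (n + 1) * R ≤ (g : ℝ) ^ (a * (n + 1)) * (2 * ((g : ℝ)⁻¹) ^ (k (J + 1))) :=
          mul_le_mul h8 h4 h3.le (by positivity)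
      _ ≤ (g : ℝ) ^ (a * (n + 1)) * (2 * ((g : ℝ)⁻¹) ^ (a * (n + 1) + 2)) := by
          apply mul_le_mul_of_nonneg_left _ (by positivity)
          apply mul_le_mul_of_nonneg_left _ (by norm_num)
          apply pow_le_pow_of_le_one (by positivity) _ h2
          exact inv_le_one_of_one_le₀ (by linarith)
      _ = 2 / (g : ℝ) ^ 2 := by
          rw [pow_add, inv_pow, inv_pow]
          field_simp
      _ < 1 := by
          rw [div_lt_one (by positivity)]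
          nlinarith
  have h9 : 0 ≤ (a : ℝ) ^ (n + 1) * R := by positivity
  unfold digit
  rw [h5]
  have h10 : ⌊((a * z : ℤ) : ℝ) + (a : ℝ) ^ (n + 1) * R⌋ = a * z := by
    rw [Int.floor_intCast_add, Int.floor_eq_zero_iff.2 ⟨h9, h6⟩, add_zero]
  rw [h10]
  exact Int.mul_emod_right _ _

end

/-- **Sharpness.** Two bases which are not coprime. -/
theorem sharp (a b : ℕ) (ha : 2 ≤ a) (hb : 2 ≤ b) (hab : ¬ Nat.Coprime a b) (ψ : ℕ → ℝ)
    (hψ : Tendsto ψ atTop atTop) : ∃ x : ℝ, Irrational x ∧ ∀ N₁ : ℕ, ∃ N : ℕ, N₁ ≤ N ∧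
      (((range N).filter fun n => digit a x (n + 1) ≠ 0).card : ℝ) +
        ((range N).filter fun n => digit b x (n + 1) ≠ 0).card ≤ ψ N := by
  obtain ⟨g, hgdef⟩ : ∃ g, g = Nat.gcd a b := ⟨_, rfl⟩
  have hg : 2 ≤ g := by
    have h1 : g ≠ 1 := by rw [hgdef]; exact hab
    have h2 : 0 < g := by rw [hgdef]; exact Nat.gcd_pos_of_pos_left _ (by omega)
    omega
  have hga : g ∣ a := by rw [hgdef]; exact Nat.gcd_dvd_left a b
  have hgb : g ∣ b := by rw [hgdef]; exact Nat.gcd_dvd_right a b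
  have hex : ∀ j k : ℕ, ∃ N : ℕ, max j k ≤ N ∧ (2 * k : ℝ) ≤ ψ N := by
    intro j k
    obtain ⟨N, h1, h2⟩ := ((tendsto_atTop.1 hψ (2 * k : ℝ)).and (eventually_ge_atTop (max j k))).exists
    exact ⟨N, h2, h1⟩
  choose F hF using hex
  obtain ⟨k, hk0, hk⟩ : ∃ k : ℕ → ℕ, k 0 = 1 ∧ ∀ j, k (j + 1) = (a + b) * (F j (k j) + 1) + 2 := by
    refine ⟨fun n => Nat.rec 1 (fun j y => (a + b) * (F j y + 1) + 2) n, rfl, fun j => rfl⟩
  have hFk : ∀ j, k j ≤ F j (k j) := fun j => (le_max_right _ _).trans (hF j (k j)).1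
  have hFj : ∀ j, j ≤ F j (k j) := fun j => (le_max_left _ _).trans (hF j (k j)).1
  have hk2 : ∀ j, 2 * k j + 2 ≤ k (j + 1) := by
    intro j
    rw [hk j]
    have h1 := hFk j
    have h2 : 2 * (F j (k j) + 1) ≤ (a + b) * (F j (k j) + 1) := Nat.mul_le_mul_right _ (by omega)
    omega
  have hk1 : ∀ j, k j + 1 ≤ k (j + 1) := fun j => by have := hk2 j; omega
  refine ⟨∑' j, tm g k j, tm_irrational g k hg hk2, fun N₁ => ⟨F N₁ (k N₁), hFj N₁, ?_⟩⟩
  refine le_trans ?_ (hF N₁ (k N₁)).2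
  have hcount : ∀ c : ℕ, 2 ≤ c → g ∣ c → c ≤ a + b →
      ((range (F N₁ (k N₁))).filter fun n => digit c (∑' j, tm g k j) (n + 1) ≠ 0).card ≤ k N₁ := by
    intro c hc hgc hcab
    have h1 : ((range (F N₁ (k N₁))).filter fun n => digit c (∑' j, tm g k j) (n + 1) ≠ 0) ⊆ range (k N₁) := by
      intro n hn
      rw [mem_filter, mem_range] at hn
      rw [mem_range]
      by_contra hcon
      push Not at hcon
      apply hn.2
      apply tm_digit g k c hc hgc hg hk1 N₁ n hcon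
      rw [hk N₁]
      have h2 : c * (n + 1) ≤ (a + b) * (F N₁ (k N₁) + 1) := Nat.mul_le_mul hcab (by omega)
      omega
    exact (card_le_card h1).trans (by rw [card_range])
  have h1 := hcount a ha hga (by omega)
  have h2 := hcount b hb hgb (by omega)
  have h1' : ((((range (F N₁ (k N₁))).filter fun n => digit a (∑' j, tm g k j) (n + 1) ≠ 0).card : ℕ) : ℝ) ≤ k N₁ := by
    exact_mod_cast h1
  have h2' : ((((range (F N₁ (k N₁))).filter fun n => digit b (∑' j, tm g k j) (n + 1) ≠ 0).card : ℕ) : ℝ) ≤ k N₁ := by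
    exact_mod_cast h2
  linarith

end Pool.Agent.U496.TB
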